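import Mathlib
import Pool.Agent.Helper20.VF.GaussY

/-!
# Project PS, piece PS-8: a Chebyshev type inequality in polar coordinates
-/

open MeasureTheory Set Metric Filter Module Matrix
open scoped NNReal Topology RealInnerProductSpace ENNReal Real

namespace Pool.Agent.Helper19.PS

open Pool.Agent.Helper20.VF (gm gw gm_pos integrableOn_gm continuous_gw gw_pos)

theorem ps8_gm (k : ℕ) :
    ∫⁻ r in Ioi (0 : ℝ), ENNReal.ofReal (r ^ k * Real.exp (-r ^ 2 / 2)) = ENNReal.ofReal (gm k) := by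
  rw [gm, ofReal_integral_eq_lintegral_ofReal (integrableOn_gm k)]
  filter_upwards [ae_restrict_mem measurableSet_Ioi] with r hr
  have hr' : (0 : ℝ) < r := hr
  simp only [Pi.zero_apply]
  positivity

/-- one-dimensional version. -/
theorem ps8_one (n q : ℕ) (φ : ℝ → ℝ) (hφ0 : ∀ r, 0 ≤ φ r)
    (h : ∀ r s : ℝ, 0 < r → r ≤ s → r ^ q * φ s ≤ s ^ q * φ r) :
    ∫⁻ r in Ioi (0 : ℝ), ENNReal.ofReal (r ^ n * (r * φ r * Real.exp (-r ^ 2 / 2)))
      ≤ ENNReal.ofReal (gm (n + 1 + q) / gm (n + q))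
        * ∫⁻ r in Ioi (0 : ℝ), ENNReal.ofReal (r ^ n * (φ r * Real.exp (-r ^ 2 / 2))) := by
  obtain ⟨ρ, hρ⟩ : ∃ ρ : ℝ, ρ = gm (n + 1 + q) / gm (n + q) := ⟨_, rfl⟩
  have hρ0 : 0 < ρ := by rw [hρ]; exact div_pos (gm_pos _) (gm_pos _)
  have hρg : ρ * gm (n + q) = gm (n + 1 + q) := by
    rw [hρ, div_mul_cancel₀]
    exact (gm_pos _).ne'
  rw [← hρ]
  obtain ⟨κ, hκ⟩ : ∃ κ : ℝ, κ = φ ρ / ρ ^ q := ⟨_, rfl⟩
  have hκ0 : 0 ≤ κ := by rw [hκ]; exact div_nonneg (hφ0 _) (by positivity)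
  have hκφ : φ ρ = κ * ρ ^ q := by
    rw [hκ, div_mul_cancel₀]
    positivity
  -- the pointwise inequality
  have hpt : ∀ r : ℝ, 0 < r → r * φ r + κ * ρ * r ^ q ≤ ρ * φ r + κ * (r ^ q * r) := by
    intro r hr
    have hρq : 0 < ρ ^ q := by positivity
    rcases le_total ρ r with hle | hle
    · have h1 := h ρ r hρ0 hle
      rw [hκφ] at h1
      have h2 : φ r ≤ κ * r ^ q := by
        have : ρ ^ q * φ r ≤ ρ ^ q * (κ * r ^ q) := by
          calc ρ ^ q * φ r ≤ r ^ q * (κ * ρ ^ q) := h1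
            _ = ρ ^ q * (κ * r ^ q) := by ring
        exact le_of_mul_le_mul_left this hρq
      nlinarith
    · have h1 := h r ρ hr hle
      rw [hκφ] at h1
      have h2 : κ * r ^ q ≤ φ r := by
        have : ρ ^ q * (κ * r ^ q) ≤ ρ ^ q * φ r := by
          calc ρ ^ q * (κ * r ^ q) = r ^ q * (κ * ρ ^ q) := by ring
            _ ≤ ρ ^ q * φ r := h1
        exact le_of_mul_le_mul_left this hρq
      nlinarith
  have hm1 : Measurable (fun r : ℝ => ENNReal.ofReal (κ * ρ * (r ^ (n + q) * Real.exp (-r ^ 2 / 2)))) := by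
    fun_prop
  have hm2 : Measurable (fun r : ℝ => ENNReal.ofReal (κ * (r ^ (n + 1 + q) * Real.exp (-r ^ 2 / 2)))) := by
    fun_prop
  have hint : (∫⁻ r in Ioi (0 : ℝ), ENNReal.ofReal (r ^ n * (r * φ r * Real.exp (-r ^ 2 / 2))))
      + (∫⁻ r in Ioi (0 : ℝ), ENNReal.ofReal (κ * ρ * (r ^ (n + q) * Real.exp (-r ^ 2 / 2))))
      ≤ (∫⁻ r in Ioi (0 : ℝ), ENNReal.ofReal (ρ * (r ^ n * (φ r * Real.exp (-r ^ 2 / 2)))))
      + (∫⁻ r in Ioi (0 : ℝ), ENNReal.ofReal (κ * (r ^ (n + 1 + q) * Real.exp (-r ^ 2 / 2)))) := by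
    rw [← lintegral_add_right _ hm1, ← lintegral_add_right _ hm2]
    refine setLIntegral_mono' measurableSet_Ioi (fun r hr => ?_)
    have hr' : (0 : ℝ) < r := hr
    have hφr := hφ0 r
    rw [← ENNReal.ofReal_add (by positivity) (by positivity),
      ← ENNReal.ofReal_add (by positivity) (by positivity)]
    apply ENNReal.ofReal_le_ofReal
    have hw : 0 ≤ r ^ n * Real.exp (-r ^ 2 / 2) := by positivity
    have := mul_le_mul_of_nonneg_left (hpt r hr') hw
    calc r ^ n * (r * φ r * Real.exp (-r ^ 2 / 2)) + κ * ρ * (r ^ (n + q) * Real.exp (-r ^ 2 / 2))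
        = r ^ n * Real.exp (-r ^ 2 / 2) * (r * φ r + κ * ρ * r ^ q) := by ring
      _ ≤ r ^ n * Real.exp (-r ^ 2 / 2) * (ρ * φ r + κ * (r ^ q * r)) := this
      _ = _ := by ring
  have hc1 : (∫⁻ r in Ioi (0 : ℝ), ENNReal.ofReal (κ * ρ * (r ^ (n + q) * Real.exp (-r ^ 2 / 2))))
      = ENNReal.ofReal (κ * gm (n + 1 + q)) := by
    have : ∀ r : ℝ, ENNReal.ofReal (κ * ρ * (r ^ (n + q) * Real.exp (-r ^ 2 / 2)))
        = ENNReal.ofReal (κ * ρ) * ENNReal.ofReal (r ^ (n + q) * Real.exp (-r ^ 2 / 2)) :=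
      fun r => ENNReal.ofReal_mul (by positivity)
    simp_rw [this]
    rw [lintegral_const_mul' _ _ ENNReal.ofReal_ne_top, ps8_gm, ← ENNReal.ofReal_mul (by positivity),
      mul_assoc, hρg]
  have hc2 : (∫⁻ r in Ioi (0 : ℝ), ENNReal.ofReal (κ * (r ^ (n + 1 + q) * Real.exp (-r ^ 2 / 2))))
      = ENNReal.ofReal (κ * gm (n + 1 + q)) := by
    have : ∀ r : ℝ, ENNReal.ofReal (κ * (r ^ (n + 1 + q) * Real.exp (-r ^ 2 / 2)))
        = ENNReal.ofReal κ * ENNReal.ofReal (r ^ (n + 1 + q) * Real.exp (-r ^ 2 / 2)) :=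
      fun r => ENNReal.ofReal_mul hκ0
    simp_rw [this]
    rw [lintegral_const_mul' _ _ ENNReal.ofReal_ne_top, ps8_gm, ← ENNReal.ofReal_mul hκ0]
  have hc3 : (∫⁻ r in Ioi (0 : ℝ), ENNReal.ofReal (ρ * (r ^ n * (φ r * Real.exp (-r ^ 2 / 2)))))
      = ENNReal.ofReal ρ * ∫⁻ r in Ioi (0 : ℝ), ENNReal.ofReal (r ^ n * (φ r * Real.exp (-r ^ 2 / 2))) := by
    have : ∀ r : ℝ, ENNReal.ofReal (ρ * (r ^ n * (φ r * Real.exp (-r ^ 2 / 2))))
        = ENNReal.ofReal ρ * ENNReal.ofReal (r ^ n * (φ r * Real.exp (-r ^ 2 / 2))) :=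
      fun r => ENNReal.ofReal_mul hρ0.le
    simp_rw [this]
    rw [lintegral_const_mul' _ _ ENNReal.ofReal_ne_top]
  rw [hc1, hc2, hc3] at hint
  exact (ENNReal.add_le_add_iff_right ENNReal.ofReal_ne_top).mp hint

variable {E : Type*} [NormedAddCommGroup E] [InnerProductSpace ℝ E] [FiniteDimensional ℝ E]
  [MeasurableSpace E] [BorelSpace E]

/-- polar coordinates for the lower integral. -/
theorem ps8_polar [Nontrivial E] (g : E → ℝ≥0∞) (hg : Measurable g) :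
    ∫⁻ x, g x = ∫⁻ u : sphere (0 : E) 1, (∫⁻ r in Ioi (0 : ℝ),
      ENNReal.ofReal (r ^ (finrank ℝ E - 1)) * g (r • (u : E))) ∂(volume : Measure E).toSphere := by
  have h1 : ∫⁻ x, g x = ∫⁻ x : ({(0)}ᶜ : Set E), g x ∂((volume : Measure E).comap (↑)) := by
    rw [lintegral_subtype_comap (measurableSet_singleton _).compl, restrict_compl_singleton]
  have hmp := (volume : Measure E).measurePreserving_homeomorphUnitSphereProd
  have h2 := hmp.lintegral_comp_emb (Homeomorph.measurableEmbedding _)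
    (fun p : sphere (0 : E) 1 × Ioi (0 : ℝ) => g ((p.2 : ℝ) • (p.1 : E)))
  have h3 : ∀ x : ({(0)}ᶜ : Set E), g (((homeomorphUnitSphereProd E x).2 : ℝ) •
      ((homeomorphUnitSphereProd E x).1 : E)) = g x.1 := by
    intro x
    have hx : ‖(x.1)‖ ≠ 0 := norm_ne_zero_iff.mpr x.2
    simp [smul_smul, mul_inv_cancel₀ hx]
  simp_rw [h3] at h2
  have hgm : Measurable (fun p : sphere (0 : E) 1 × Ioi (0 : ℝ) => g ((p.2 : ℝ) • (p.1 : E))) := by
    apply hg.comp
    fun_prop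
  rw [h1, h2, lintegral_prod _ hgm.aemeasurable]
  refine lintegral_congr (fun u => ?_)
  have hgu : Measurable (fun r : ℝ => g (r • (u : E))) := by
    apply hg.comp
    fun_prop
  rw [Measure.volumeIoiPow, lintegral_withDensity_eq_lintegral_mul]
  · rw [← lintegral_subtype_comap measurableSet_Ioi
      (fun r : ℝ => ENNReal.ofReal (r ^ (finrank ℝ E - 1)) * g (r • (u : E)))]
    rfl
  · fun_prop
  · exact hgu.comp measurable_subtype_coe

theorem rho_E {E : Type*} [NormedAddCommGroup E] [InnerProductSpace ℝ E] [FiniteDimensional ℝ E]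
    [MeasurableSpace E] [BorelSpace E] [Nontrivial E] (q : ℕ) (F : E → ℝ) (hFm : Measurable F)
    (hF0 : ∀ x, 0 ≤ F x)
    (hF : ∀ x, ∀ r s : ℝ, 0 < r → r ≤ s → r ^ q * F (s • x) ≤ s ^ q * F (r • x)) :
    ∫⁻ x, ENNReal.ofReal (‖x‖ * F x * gw x)
      ≤ ENNReal.ofReal (gm (finrank ℝ E + q) / gm (finrank ℝ E - 1 + q))
        * ∫⁻ x, ENNReal.ofReal (F x * gw x) := by
  obtain ⟨n, hn⟩ : ∃ n, finrank ℝ E = n + 1 := ⟨finrank ℝ E - 1, by
    have : 0 < finrank ℝ E := finrank_pos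
    omega⟩
  have hgw : Measurable (gw : E → ℝ) := continuous_gw.measurable
  rw [ps8_polar _ (by fun_prop), ps8_polar _ (by fun_prop), hn]
  have hsub : n + 1 - 1 = n := by omega
  rw [hsub]
  rw [← lintegral_const_mul' _ _ ENNReal.ofReal_ne_top]
  refine lintegral_mono (fun u => ?_)
  have hu : ‖(u : E)‖ = 1 := by simp
  have h := ps8_one n q (fun r => F (r • (u : E))) (fun r => hF0 _)
    (fun r s hr hrs => hF u r s hr hrs)
  refine le_trans (le_of_eq ?_) (h.trans (le_of_eq ?_))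
  · refine setLIntegral_congr_fun measurableSet_Ioi (fun r hr => ?_)
    have hr' : (0 : ℝ) < r := hr
    rw [← ENNReal.ofReal_mul (by positivity), gw, norm_smul, hu, mul_one, Real.norm_eq_abs,
      abs_of_pos hr']
  · congr 1
    refine setLIntegral_congr_fun measurableSet_Ioi (fun r hr => ?_)
    have hr' : (0 : ℝ) < r := hr
    rw [← ENNReal.ofReal_mul (by positivity), gw, norm_smul, hu, mul_one, Real.norm_eq_abs,
      abs_of_pos hr']

end Pool.Agent.Helper19.PS
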