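import Pool.Agent.Helper19.PS.Defs

/-!
# Project PS, piece PS-15: the scalar inequality
-/

open MeasureTheory Set Metric Filter Module Matrix
open scoped NNReal Topology RealInnerProductSpace ENNReal Real

namespace Pool.Agent.Helper19.PS

open Pool.Agent.Helper20.VF (gm gw gm_pos gm_succ_succ)

/-- Bernoulli. -/
theorem ps15_rpow {x p u : ℝ} (hx0 : 0 ≤ x) (hp : 1 ≤ p) (hpx : p * x ≤ u) (hu : u < 1) :
    (1 - x) ^ (-p) ≤ 1 / (1 - u) := by
  have hx1 : x < 1 := by nlinarith only [hpx, hu, hx0, hp]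
  have h1 : 1 + p * (-x) ≤ (1 + (-x)) ^ p :=
    one_add_mul_self_le_rpow_one_add (by linarith) hp
  have h2 : 1 - u ≤ (1 - x) ^ p := by
    have : (1 + (-x)) ^ p = (1 - x) ^ p := by ring_nf
    rw [this] at h1
    linarith
  rw [Real.rpow_neg (by linarith), ← one_div]
  exact one_div_le_one_div_of_le (by linarith) h2

theorem ps15_gm1 : gm 1 = 1 := by
  have h := Pool.Agent.Helper20.VF.gm_eq 1
  rw [h]
  norm_num

theorem ps15_gm_odd (k : ℕ) : gm (2 * k + 1) = 2 ^ k * (k.factorial : ℝ) := by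
  induction k with
  | zero => simp [ps15_gm1]
  | succ k ih =>
    have : 2 * (k + 1) + 1 = (2 * k + 1) + 2 := by ring
    rw [this, gm_succ_succ, ih, Nat.factorial_succ]
    push_cast
    ring

/-- the assembly. -/
theorem ps15_sum {A M β P X2 X3 e1 T0 T4 b2 b3 b4 : ℝ} (hA : 0 < A) (hM : 3 ≤ M) (hβ : 0 < β)
    (h0 : T0 ≤ 1 - β / 2 + β ^ 2 / 8)
    (h2 : M * P * X2 ≤ b2)
    (h3 : e1 ^ 2 * P * (M / (8 * (M - 2))) * ((2 * M + 1) * (2 * M + 3)) * X3 ≤ β * b3)
    (h4 : T4 ≤ A * β * b4)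
    (hb : β / 8 + 1.25 / (2 * M - 2) + b2 + b3 + b4 ≤ 0.49) :
    T0 * A + 1 / 2 * (A / (2 * M - 2)) * (β / 2 + 2 * β)
      + (M * (M - 1) / 2) * P * (4 * β * (A / (2 * M - 2)) * X2)
      + (M * (M - 1) / 2) * P * (e1 ^ 2 * (A / ((2 * M - 2) * (2 * M - 4)))
          * ((2 * M + 1) * (2 * M + 3)) * X3)
      + T4 ≤ A * (1 - β / 100) := by
  have hM1 : 2 * M - 2 ≠ 0 := by linarith only [hM]
  have hM1' : M - 1 ≠ 0 := by linarith only [hM]
  have hM2 : 2 * M - 4 ≠ 0 := by linarith only [hM]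
  have hM2' : M - 2 ≠ 0 := by linarith only [hM]
  have e1' : 1 / 2 * (A / (2 * M - 2)) * (β / 2 + 2 * β) = A * β * (1.25 / (2 * M - 2)) := by
    field_simp
    ring
  have e2' : (M * (M - 1) / 2) * P * (4 * β * (A / (2 * M - 2)) * X2)
      = A * β * (M * P * X2) := by
    have : 2 * M - 2 = 2 * (M - 1) := by ring
    rw [this]
    field_simp
    ring
  have e3' : (M * (M - 1) / 2) * P * (e1 ^ 2 * (A / ((2 * M - 2) * (2 * M - 4)))
          * ((2 * M + 1) * (2 * M + 3)) * X3)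
      = A * (e1 ^ 2 * P * (M / (8 * (M - 2))) * ((2 * M + 1) * (2 * M + 3)) * X3) := by
    have h1 : 2 * M - 2 = 2 * (M - 1) := by ring
    have h2 : 2 * M - 4 = 2 * (M - 2) := by ring
    rw [h1, h2]
    field_simp
    ring
  rw [e1', e2', e3']
  have f0 : T0 * A ≤ (1 - β / 2 + β ^ 2 / 8) * A := mul_le_mul_of_nonneg_right h0 hA.le
  have f2 : A * β * (M * P * X2) ≤ A * β * b2 :=
    mul_le_mul_of_nonneg_left h2 (by positivity)
  have f3 := mul_le_mul_of_nonneg_left h3 hA.le
  have f5 : A * β * (β / 8 + 1.25 / (2 * M - 2) + b2 + b3 + b4) ≤ A * β * 0.49 :=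
    mul_le_mul_of_nonneg_left hb (by positivity)
  linarith only [h4, f0, f2, f3, f5, f0, f2, f3, f5, h4]

/-- the square root factor. -/
theorem ps15_sqrt {M β c K : ℝ} (hM : 3 ≤ M) (hβ : 0 < β) (hc : c = β / (4 * M)) (hK : 0 ≤ K)
    (h : β * (4 * π * M / (M - 1)) ≤ K ^ 2) :
    β * ((√c)⁻¹ * √(2 * π) / √(2 * M - 2)) ≤ K := by
  have hc0 : 0 < c := by rw [hc]; positivity
  have hM1 : 0 < M - 1 := by linarith
  have hM2 : 0 < 2 * M - 2 := by linarith
  have hs : (√c)⁻¹ * √(2 * π) / √(2 * M - 2) = √(2 * π / (c * (2 * M - 2))) := by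
    rw [Real.sqrt_div (by positivity), Real.sqrt_mul hc0.le]
    field_simp
  rw [hs]
  have hβs : β * √(2 * π / (c * (2 * M - 2))) = √(β ^ 2 * (2 * π / (c * (2 * M - 2)))) := by
    rw [Real.sqrt_mul (by positivity), Real.sqrt_sq hβ.le]
  rw [hβs]
  apply Real.sqrt_le_iff.mpr
  refine ⟨hK, le_trans (le_of_eq ?_) h⟩
  rw [hc]
  have : 2 * M - 2 = 2 * (M - 1) := by ring
  rw [this]
  field_simp
  try ring

/-- `(1 - β/(2m))^m ≤ 1 - β/2 + β²/8`. -/
theorem ps15_T0 (m : ℕ) (hm : 3 ≤ m) {β : ℝ} (hβ : 0 < β) (hβ1 : β ≤ 1) :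
    (1 - β / (2 * m)) ^ m ≤ 1 - β / 2 + β ^ 2 / 8 := by
  have hM : (3 : ℝ) ≤ m := by exact_mod_cast hm
  have h1 : 1 - β / (2 * m) ≤ Real.exp (-(β / (2 * m))) := by
    have := Real.add_one_le_exp (-(β / (2 * m)))
    linarith only [this]
  have h0 : 0 ≤ 1 - β / (2 * m) := by
    have : β / (2 * m) ≤ 1 := by
      rw [div_le_one (by positivity)]
      linarith
    linarith
  have h2 : (1 - β / (2 * m)) ^ m ≤ Real.exp (-(β / 2)) := by
    calc (1 - β / (2 * m)) ^ m ≤ (Real.exp (-(β / (2 * m)))) ^ m := pow_le_pow_left₀ h0 h1 m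
      _ = Real.exp (-(β / 2)) := by
        rw [← Real.exp_nat_mul]
        congr 1
        field_simp
  refine h2.trans ?_
  have h3 := Real.one_sub_le_exp_neg (β / 2)
  have h4 : 1 + β / 2 + (β / 2) ^ 2 / 2 ≤ Real.exp (β / 2) :=
    Real.quadratic_le_exp_of_nonneg (by positivity)
  rw [Real.exp_neg]
  have h5 : 0 < Real.exp (β / 2) := Real.exp_pos _
  rw [inv_le_iff_one_le_mul₀ h5]
  have h6 : 0 ≤ 1 - β / 2 + β ^ 2 / 8 := by nlinarith only [hβ1]
  calc (1 : ℝ) ≤ (1 - β / 2 + β ^ 2 / 8) * (1 + β / 2 + (β / 2) ^ 2 / 2) := by linarith only [sq_nonneg (β ^ 2)]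
    _ ≤ (1 - β / 2 + β ^ 2 / 8) * Real.exp (β / 2) := mul_le_mul_of_nonneg_left h4 h6

theorem scalar_ineq (m : ℕ) (hm : 3 ≤ m) (be c : ℝ) (hbe0 : 0 < be) (hbe1 : be ≤ be1 (2 * m))
    (hc : c = be / (4 * m)) :
    (1 - be / (2 * m)) ^ m * (2 * gm (2 * m - 1))
      + 1 / 2 * (2 * gm (2 * m - 3)) * (c * (2 * m) + 2 * be)
      + (m * (m - 1) / 2) / (2 * m) ^ m
        * (4 * be * (2 * m + 1) ^ (m - 2) * (2 * gm (2 * m - 3))
              * (1 - (2 * be + c) / (2 * m + 1)) ^ (-((2 * (m : ℝ) + 3) / 2))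
          + (be + c) ^ 2 * ((2 * m + 1) ^ (m - 2) * (2 * gm (2 * m - 5))
              * ((2 * m + 1) * (2 * m + 3))
              * (1 - 2 * (2 * be + c) / (2 * m + 1)) ^ (-((2 * (m : ℝ) + 5) / 2))
            + (2 * be + c) ^ (m - 2) * (√c)⁻¹ * √(2 * π) * ((3 * m) ^ m / √(2 * m - 2))))
      ≤ 2 * gm (2 * m - 1) * (1 - be / 100) := by
  have hM3 : (3 : ℝ) ≤ m := by exact_mod_cast hm
  have hM0 : (0 : ℝ) < m := by linarith
  have hM1 : (0 : ℝ) < 2 * m - 2 := by linarith
  have hM2 : (0 : ℝ) < 2 * m - 4 := by linarith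
  have hc0 : 0 < c := by rw [hc]; positivity
  -- Gamma constants
  have g1 : gm (2 * m - 1) = (2 * m - 2) * gm (2 * m - 3) := by
    have h : 2 * m - 1 = (2 * m - 3) + 2 := by omega
    rw [h, gm_succ_succ, Nat.cast_sub (by omega)]
    push_cast
    ring
  have g2 : gm (2 * m - 3) = (2 * m - 4) * gm (2 * m - 5) := by
    have h : 2 * m - 3 = (2 * m - 5) + 2 := by omega
    rw [h, gm_succ_succ, Nat.cast_sub (by omega)]
    push_cast
    ring
  have gA : 2 * gm (2 * m - 1) = 2 ^ m * ((m - 1).factorial : ℝ) := by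
    have h : 2 * m - 1 = 2 * (m - 1) + 1 := by omega
    rw [h, ps15_gm_odd]
    have h2 : (2 : ℝ) ^ m = 2 * 2 ^ (m - 1) := by
      rw [← pow_succ']
      congr 1
      omega
    rw [h2]
    ring
  obtain ⟨A, hA⟩ : ∃ A, A = 2 * gm (2 * m - 1) := ⟨_, rfl⟩
  have hA0 : 0 < A := by rw [hA]; have := gm_pos (2 * m - 1); positivity
  have hg3 : 2 * gm (2 * m - 3) = A / (2 * m - 2) := by
    rw [hA, g1, eq_div_iff hM1.ne']
    ring
  have hg5 : 2 * gm (2 * m - 5) = A / ((2 * m - 2) * (2 * m - 4)) := by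
    rw [hA, g1, g2, eq_div_iff (by positivity)]
    ring
  rw [hg3, hg5, ← hA]
  rw [← hA] at gA
  obtain ⟨X2, hX2⟩ : ∃ X2, X2 = (1 - (2 * be + c) / (2 * m + 1)) ^ (-((2 * (m : ℝ) + 3) / 2)) :=
    ⟨_, rfl⟩
  obtain ⟨X3, hX3⟩ : ∃ X3, X3 = (1 - 2 * (2 * be + c) / (2 * m + 1)) ^ (-((2 * (m : ℝ) + 5) / 2)) :=
    ⟨_, rfl⟩
  rw [← hX2, ← hX3]
  obtain ⟨P, hP⟩ : ∃ P : ℝ, P = (2 * m + 1) ^ (m - 2) / (2 * m) ^ m := ⟨_, rfl⟩
  obtain ⟨T4, hT4⟩ : ∃ T4 : ℝ, T4 = (m * (m - 1) / 2) / (2 * m) ^ m * ((be + c) ^ 2 *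
    ((2 * be + c) ^ (m - 2) * (√c)⁻¹ * √(2 * π) * ((3 * m) ^ m / √(2 * m - 2)))) := ⟨_, rfl⟩
  have hcm : c * (2 * m) = be / 2 := by
    rw [hc]
    field_simp
    ring
  have hLHS : (1 - be / (2 * m)) ^ m * A
      + 1 / 2 * (A / (2 * m - 2)) * (c * (2 * m) + 2 * be)
      + (m * (m - 1) / 2) / (2 * m) ^ m
        * (4 * be * (2 * m + 1) ^ (m - 2) * (A / (2 * m - 2)) * X2
          + (be + c) ^ 2 * ((2 * m + 1) ^ (m - 2) * (A / ((2 * m - 2) * (2 * m - 4)))
              * ((2 * m + 1) * (2 * m + 3)) * X3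
            + (2 * be + c) ^ (m - 2) * (√c)⁻¹ * √(2 * π) * ((3 * m) ^ m / √(2 * m - 2))))
      = (1 - be / (2 * m)) ^ m * A + 1 / 2 * (A / (2 * m - 2)) * (be / 2 + 2 * be)
      + (m * (m - 1) / 2) * P * (4 * be * (A / (2 * m - 2)) * X2)
      + (m * (m - 1) / 2) * P * ((be + c) ^ 2 * (A / ((2 * m - 2) * (2 * m - 4)))
          * ((2 * m + 1) * (2 * m + 3)) * X3)
      + T4 := by
    rw [hcm, hT4, hP]
    ring
  rw [hLHS]
  have hr : P = ((2 * m + 1) / (2 * m)) ^ (m - 2) / (2 * m) ^ 2 := by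
    rw [hP, div_pow, div_div, ← pow_add]
    congr 2
    omega
  have hT4' : T4 = (m * (m - 1) / 2) * (3 / 2) ^ m * ((be + c) ^ 2 * (2 * be + c) ^ (m - 2)) *
      ((√c)⁻¹ * √(2 * π) / √(2 * m - 2)) := by
    have : ((3 * m : ℝ)) ^ m = (3 / 2) ^ m * (2 * m) ^ m := by
      rw [← mul_pow]
      congr 1
      ring
    rw [hT4, this]
    have h2m : ((2 * m : ℝ)) ^ m ≠ 0 := by positivity
    field_simp
  obtain ⟨S, hSdef⟩ : ∃ S : ℝ, S = (√c)⁻¹ * √(2 * π) / √(2 * m - 2) := ⟨_, rfl⟩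
  rw [← hSdef] at hT4'
  have hS0 : 0 ≤ S := by rw [hSdef]; positivity
  have hSK : ∀ K : ℝ, 0 ≤ K → be * (4 * π * m / (m - 1)) ≤ K ^ 2 → be * S ≤ K := by
    intro K hK h
    rw [hSdef]
    exact ps15_sqrt hM3 hbe0 hc hK h
  clear hLHS hT4 hSdef
  have hbe1' : be ≤ 3 * (2 * m - 1) / (16 * (2 * m) ^ 2) := by
    have h := hbe1
    rw [be1] at h
    push_cast at h
    exact h
  rcases Nat.lt_or_ge m 4 with hm4 | hm4
  · -- m = 3
    have hm3 : m = 3 := by omega
    subst hm3
    norm_num at hbe1' hc hT4' hP hX2 hX3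
    have hb : be ≤ 5 / 192 := by linarith only [hbe1']
    have hβ1 : be ≤ 1 := by linarith only [hc0, hcm, hbe1']
    have h0 := ps15_T0 3 le_rfl hbe0 hβ1
    have hx2 : X2 ≤ 1 / (1 - 0.0349) := by
      rw [hX2]
      have := ps15_rpow (x := (2 * be + c) / 7) (p := 9 / 2) (u := 0.0349) (by positivity)
        (by norm_num) (by rw [hc]; linarith only [hc0, hcm, hbe1']) (by norm_num)
      exact this
    have hx3 : X3 ≤ 1 / (1 - 0.0853) := by
      rw [hX3]
      have := ps15_rpow (x := 2 * (2 * be + c) / 7) (p := 11 / 2) (u := 0.0853) (by positivity)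
        (by norm_num) (by rw [hc]; linarith only [hc0, hcm, hbe1']) (by norm_num)
      exact this
    have hS := hSK 0.7007 (by norm_num) (by
        have := Real.pi_lt_d4
        have h1 : be * (4 * π * ((3 : ℕ) : ℝ) / (((3 : ℕ) : ℝ) - 1)) = 6 * (be * π) := by
          push_cast
          ring
        rw [h1]
        have h2 : be * π ≤ 5 / 192 * 3.1416 :=
          mul_le_mul hb this.le Real.pi_pos.le (by norm_num)
        linarith only [hc0, hcm, hbe1', h2])
    have hfin := ps15_sum (A := A) (M := ((3 : ℕ) : ℝ)) (β := be) (P := P) (X2 := X2) (X3 := X3)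
      (e1 := be + c) (T0 := (1 - be / (2 * ((3 : ℕ) : ℝ))) ^ 3) (T4 := T4) (b2 := 0.1008)
      (b3 := 0.0256) (b4 := 0.0283) hA0 (by norm_num) hbe0 h0 ?_ ?_ ?_ ?_
    · exact hfin
    · rw [hP]
      norm_num
      norm_num at hx2
      linarith only [hc0, hcm, hbe1', hx2]
    · rw [hP, hc]
      norm_num
      norm_num at hx3
      have h1 : 0 ≤ be ^ 2 := sq_nonneg be
      have h2 : be ^ 2 ≤ be * (5 / 192) := by nlinarith only [hbe0, hbe1']
      have h3 : be ^ 2 * X3 ≤ be * (5 / 192) * (10000 / 9147) := by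
        calc be ^ 2 * X3 ≤ be ^ 2 * (10000 / 9147) := mul_le_mul_of_nonneg_left hx3 h1
          _ ≤ be * (5 / 192) * (10000 / 9147) := mul_le_mul_of_nonneg_right h2 (by norm_num)
      linarith only [hc0, hcm, h3]
    · have hA16 : A = 16 := by
        rw [gA]
        norm_num [Nat.factorial]
      have h1 : T4 = 81 / 8 * (169 / 144 * (25 / 12)) * (be ^ 2 * (be * S)) := by
        rw [hT4', hc]
        ring
      rw [h1, hA16]
      have h2 : be ^ 2 ≤ be * (5 / 192) := by nlinarith only [hbe0, hbe1']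
      have h3 : be ^ 2 * (be * S) ≤ be * (5 / 192) * 0.7007 :=
        mul_le_mul h2 hS (by positivity) (by positivity)
      linarith only [hc0, hcm, h3]
    · norm_num
      linarith only [hc0, hcm, hbe1']
  · -- m ≥ 4
    have hM4 : (4 : ℝ) ≤ m := by exact_mod_cast hm4
    have hb : be ≤ 3 / (32 * m) := by
      refine hbe1'.trans ?_
      rw [div_le_div_iff₀ (by positivity) (by positivity)]
      linarith only [hM4]
    have hbm : be * m ≤ 3 / 32 := by
      rw [le_div_iff₀ (by positivity)] at hb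
      linarith only [hb]
    have hb2 : be ≤ 3 / 128 := by nlinarith only [hbm, hbe0, hM4]
    have hβ1 : be ≤ 1 := by linarith only [hbe0, hb2]
    have hcb : c ≤ be / 16 := by
      rw [hc, div_le_div_iff₀ (by positivity) (by positivity)]
      nlinarith only [hbe0, hM4]
    have h0 := ps15_T0 m hm hbe0 hβ1
    have hx2 : X2 ≤ 1 / (1 - 0.03) := by
      rw [hX2]
      refine ps15_rpow (by positivity) (by linarith only [hc0, hM4, hb2, hcb]) ?_ (by norm_num)
      have : (2 * (m : ℝ) + 3) / 2 * ((2 * be + c) / (2 * m + 1))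
          = (2 * m + 3) * (2 * be + c) / (2 * (2 * m + 1)) := by
        field_simp
      rw [this, div_le_iff₀ (by positivity)]
      linarith only [hc0, hcm, hM4, hbm, hb2, hcb]
    have hx3 : X3 ≤ 1 / (1 - 0.07) := by
      rw [hX3]
      refine ps15_rpow (by positivity) (by linarith only [hc0, hM4, hb2, hcb]) ?_ (by norm_num)
      have : (2 * (m : ℝ) + 5) / 2 * (2 * (2 * be + c) / (2 * m + 1))
          = (2 * m + 5) * (2 * be + c) / (2 * m + 1) := by
        field_simp
      rw [this, div_le_iff₀ (by positivity)]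
      linarith only [hc0, hcm, hM4, hbm, hb2, hcb]
    have hS := hSK 0.63 (by norm_num) (by
        have hpi := Real.pi_lt_d2
        have h1 : be * (4 * π * m / (m - 1)) = (be * m) * π * (4 / (m - 1)) := by ring
        rw [h1]
        have h2 : be * m * π ≤ 3 / 32 * 3.15 :=
          mul_le_mul hbm hpi.le Real.pi_pos.le (by norm_num)
        have h3 : 4 / ((m : ℝ) - 1) ≤ 4 / 3 := by
          apply div_le_div_of_nonneg_left (by norm_num) (by norm_num)
          linarith only [hM4]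
        have h4 : 0 ≤ 4 / ((m : ℝ) - 1) := by
          apply div_nonneg (by norm_num)
          linarith only [hc0, hM4, hb2, hcb]
        calc be * m * π * (4 / (m - 1)) ≤ 3 / 32 * 3.15 * (4 / 3) :=
              mul_le_mul h2 h3 h4 (by norm_num)
          _ ≤ 0.63 ^ 2 := by norm_num)
    have hR : ((2 * (m : ℝ) + 1) / (2 * m)) ^ (m - 2) ≤ 1.65 := by
      have e1 : (2 * (m : ℝ) + 1) / (2 * m) ≤ Real.exp (1 / (2 * m)) := by
        have h := Real.add_one_le_exp (1 / (2 * (m : ℝ)))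
        have h2 : (2 * (m : ℝ) + 1) / (2 * m) = 1 / (2 * m) + 1 := by
          field_simp
          ring
        rw [h2]
        exact h
      calc ((2 * (m : ℝ) + 1) / (2 * m)) ^ (m - 2) ≤ (Real.exp (1 / (2 * m))) ^ (m - 2) :=
            pow_le_pow_left₀ (by positivity) e1 _
        _ = Real.exp (((m - 2 : ℕ) : ℝ) * (1 / (2 * m))) := by rw [← Real.exp_nat_mul]
        _ ≤ Real.exp (1 / 2) := by
          apply Real.exp_le_exp.mpr
          rw [Nat.cast_sub (by omega), mul_one_div, div_le_div_iff₀ (by positivity) (by norm_num)]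
          push_cast
          linarith only [hc0, hb2, hcb]
        _ ≤ 1.65 := by
          have h1 := Real.exp_one_lt_d9
          have h2 : Real.exp (1 / 2) ^ 2 = Real.exp 1 := by
            rw [← Real.exp_nat_mul]
            norm_num
          have h3 : 0 < Real.exp (1 / 2) := Real.exp_pos _
          nlinarith only [h2, hc0, h1, hb2, hcb, h3]
    have hP0 : 0 ≤ P := by rw [hr]; positivity
    have hPle : P ≤ 1.65 / (4 * m ^ 2) := by
      rw [hr]
      have : (2 * (m : ℝ)) ^ 2 = 4 * m ^ 2 := by ring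
      rw [this]
      exact div_le_div_of_nonneg_right hR (by positivity)
    have hPm : P * (4 * m ^ 2) ≤ 1.65 := by
      rwa [le_div_iff₀ (by positivity)] at hPle
    have hfin := ps15_sum (A := A) (M := (m : ℝ)) (β := be) (P := P) (X2 := X2) (X3 := X3)
      (e1 := be + c) (T0 := (1 - be / (2 * (m : ℝ))) ^ m) (T4 := T4) (b2 := 0.107)
      (b3 := 0.0185) (b4 := 0.001) hA0 hM3 hbe0 h0 ?_ ?_ ?_ ?_
    · exact hfin
    · have h1 : m * P ≤ 1.65 / 16 := by nlinarith only [hM4, hPm, hM3]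
      norm_num at hx2
      calc (m : ℝ) * P * X2 ≤ (m : ℝ) * P * (100 / 97) :=
            mul_le_mul_of_nonneg_left hx2 (by positivity)
        _ ≤ 1.65 / 16 * (100 / 97) := mul_le_mul_of_nonneg_right h1 (by norm_num)
        _ ≤ 0.107 := by norm_num
    · norm_num at hx3
      have hm2 : (0 : ℝ) < m - 2 := by linarith only [hc0, hM4, hb2, hcb]
      have hsq : (be + c) ^ 2 ≤ 289 / 256 * (be * (3 / 128)) := by
        have : be + c ≤ 17 / 16 * be := by linarith only [hcb]
        calc (be + c) ^ 2 ≤ (17 / 16 * be) ^ 2 := pow_le_pow_left₀ (by positivity) this 2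
          _ = 289 / 256 * (be * be) := by ring
          _ ≤ 289 / 256 * (be * (3 / 128)) := by
            apply mul_le_mul_of_nonneg_left _ (by norm_num)
            exact mul_le_mul_of_nonneg_left hb2 hbe0.le
      have hW : (2 * (m : ℝ) + 1) * (2 * m + 3) / (m * (m - 2)) ≤ 99 / 8 := by
        rw [div_le_div_iff₀ (by positivity) (by norm_num)]
        nlinarith only [hM4]
      have hW0 : 0 ≤ (2 * (m : ℝ) + 1) * (2 * m + 3) / (m * (m - 2)) := by positivity
      have hQ0 : 0 ≤ (be + c) ^ 2 * P * ((m : ℝ) / (8 * (m - 2))) * ((2 * m + 1) * (2 * m + 3)) := by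
        positivity
      have hQ : (be + c) ^ 2 * P * ((m : ℝ) / (8 * (m - 2))) * ((2 * m + 1) * (2 * m + 3))
          = (be + c) ^ 2 * (P * (4 * m ^ 2)) * ((2 * (m : ℝ) + 1) * (2 * m + 3) / (m * (m - 2)))
            / 32 := by
        field_simp
        ring
      calc (be + c) ^ 2 * P * ((m : ℝ) / (8 * (m - 2))) * ((2 * m + 1) * (2 * m + 3)) * X3
          ≤ (be + c) ^ 2 * P * ((m : ℝ) / (8 * (m - 2))) * ((2 * m + 1) * (2 * m + 3))
            * (100 / 93) := mul_le_mul_of_nonneg_left hx3 hQ0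
        _ = (be + c) ^ 2 * (P * (4 * m ^ 2)) * ((2 * (m : ℝ) + 1) * (2 * m + 3) / (m * (m - 2)))
            * (100 / 93 / 32) := by rw [hQ]; ring
        _ ≤ (289 / 256 * (be * (3 / 128))) * 1.65 * (99 / 8) * (100 / 93 / 32) := by
          apply mul_le_mul_of_nonneg_right _ (by norm_num)
          apply mul_le_mul _ hW hW0 (by positivity)
          exact mul_le_mul hsq hPm (by positivity) (by positivity)
        _ ≤ be * 0.0185 := by linarith only [hc0, hcb]
    · have hfac : ∀ k : ℕ, 4 ≤ k → k * (k - 1) ≤ 2 * (k - 1).factorial := by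
        intro k hk
        induction k, hk using Nat.le_induction with
        | base => decide
        | succ k hk ih =>
          have h1 : k + 1 - 1 = k := by omega
          rw [h1]
          have h2 : k.factorial = k * (k - 1).factorial := (Nat.mul_factorial_pred (by omega)).symm
          rw [h2]
          have h3 : k + 1 ≤ k * (k - 1) := by
            obtain ⟨j, rfl⟩ : ∃ j, k = j + 4 := ⟨k - 4, by omega⟩
            have : j + 4 - 1 = j + 3 := by omega
            rw [this]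
            nlinarith only []
          calc (k + 1) * k ≤ (k * (k - 1)) * k := Nat.mul_le_mul_right _ h3
            _ ≤ (2 * (k - 1).factorial) * k := Nat.mul_le_mul_right _ ih
            _ = 2 * (k * (k - 1).factorial) := by ring
      have hf := hfac m hm4
      have hf' : (m : ℝ) * (m - 1) / 2 ≤ ((m - 1).factorial : ℝ) := by
        have h1 : ((m * (m - 1) : ℕ) : ℝ) ≤ ((2 * (m - 1).factorial : ℕ) : ℝ) := by
          exact_mod_cast hf
        rw [Nat.cast_mul, Nat.cast_sub (by omega)] at h1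
        push_cast at h1
        linarith only [h1]
      have h34 : ((3 : ℝ) / 4) ^ m ≤ 81 / 256 := by
        calc ((3 : ℝ) / 4) ^ m ≤ (3 / 4) ^ 4 :=
              pow_le_pow_of_le_one (by norm_num) (by norm_num) hm4
          _ = 81 / 256 := by norm_num
      have h32 : ((3 : ℝ) / 2) ^ m = 2 ^ m * (3 / 4) ^ m := by
        rw [← mul_pow]
        norm_num
      have hm1 : (0 : ℝ) ≤ m * (m - 1) / 2 := by
        have : (0 : ℝ) ≤ m - 1 := by linarith only [hc0, hM4, hb2, hcb]
        positivity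
      have hκ : (m : ℝ) * (m - 1) / 2 * (3 / 2) ^ m ≤ A * (81 / 256) := by
        rw [h32, gA]
        calc (m : ℝ) * (m - 1) / 2 * (2 ^ m * (3 / 4) ^ m)
            = 2 ^ m * ((m : ℝ) * (m - 1) / 2 * (3 / 4) ^ m) := by ring
          _ ≤ 2 ^ m * (((m - 1).factorial : ℝ) * (81 / 256)) := by
            apply mul_le_mul_of_nonneg_left _ (by positivity)
            exact mul_le_mul hf' h34 (by positivity) (by positivity)
          _ = 2 ^ m * ((m - 1).factorial : ℝ) * (81 / 256) := by ring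
      have he3 : 2 * be + c ≤ 0.0484 := by linarith only [hc0, hb2, hcb]
      have he3p : (2 * be + c) ^ (m - 2) ≤ 0.0484 ^ 2 := by
        calc (2 * be + c) ^ (m - 2) ≤ 0.0484 ^ (m - 2) := pow_le_pow_left₀ (by positivity) he3 _
          _ ≤ 0.0484 ^ 2 := pow_le_pow_of_le_one (by norm_num) (by norm_num) (by omega)
      have hbS : (be + c) ^ 2 * S ≤ 289 / 256 * be * 0.63 := by
        have : be + c ≤ 17 / 16 * be := by linarith only [hcb]
        calc (be + c) ^ 2 * S ≤ (17 / 16 * be) ^ 2 * S := by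
              apply mul_le_mul_of_nonneg_right _ hS0
              exact pow_le_pow_left₀ (by positivity) this 2
          _ = 289 / 256 * be * (be * S) := by ring
          _ ≤ 289 / 256 * be * 0.63 := mul_le_mul_of_nonneg_left hS (by positivity)
      calc T4 = ((m : ℝ) * (m - 1) / 2 * (3 / 2) ^ m) * (((be + c) ^ 2 * S)
            * (2 * be + c) ^ (m - 2)) := by rw [hT4']; ring
        _ ≤ (A * (81 / 256)) * ((289 / 256 * be * 0.63) * 0.0484 ^ 2) := by
          apply mul_le_mul hκ _ (by positivity) (by positivity)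
          exact mul_le_mul hbS he3p (by positivity) (by positivity)
        _ = A * be * (81 / 256 * (289 / 256) * 0.63 * 0.0484 ^ 2) := by ring
        _ ≤ A * be * 0.001 := by
          apply mul_le_mul_of_nonneg_left _ (by positivity)
          norm_num
    · have : 1.25 / (2 * (m : ℝ) - 2) ≤ 1.25 / 6 := by
        apply div_le_div_of_nonneg_left (by norm_num) (by norm_num)
        linarith only [hM4]
      norm_num at this ⊢
      linarith only [hc0, hb2, hcb, this]

end Pool.Agent.Helper19.PS
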